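import Pool.Agent.IndComp.Nilp

/-!
# Finite nilpotent groups: the independence complex determines the strong independence complex

If `G₁` is a finite nilpotent group and `φ` is an isomorphism between the independence complexes of
`G₁` and of a finite group `G₂`, then `φ` is an isomorphism of the strong independence complexes.
-/

namespace Pool.Agent.Results.MP_30f0cf_al.NilpotentGroups

open Pool.Agent.IndComp

/-- Every isomorphism `φ` from the independence complex of a finite nilpotent group `G₁` to the
independence complex of a finite group `G₂` is an isomorphism of the strong independence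
complexes. -/
theorem result (G₁ G₂ : Type) [Group G₁] [Finite G₁] [Group G₂] [Finite G₂]
    (hG₁ : Group.IsNilpotent G₁) (φ : G₁ ≃ G₂) (hφ : ∀ A : Set G₁, Indep A ↔ Indep (φ '' A)) :
    ∀ A : Set G₁, StrongIndep A ↔ StrongIndep (φ '' A) :=
  fun A => (nilpotent_iso hG₁ (fun B => (hφ B).symm) A).symm

end Pool.Agent.Results.MP_30f0cf_al.NilpotentGroups
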